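import Mathlib

set_option autoImplicit false

/-!
# Extension of homomorphisms from the centraliser of an isolated involution

Let `t` be an involution of a group `G` such that all `t * t ^ g` have odd order and any two elements of
odd order inverted by `t` generate a subgroup all of whose elements have odd order. Then every element
of `G` is a product `c * v`, in a unique way, with `c` in the centraliser of `t` and `v` of odd order
inverted by `t`, and every homomorphism of the centraliser of `t` to a group without nontrivial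
elements of odd order extends to `G`.
-/

namespace Pool.Agent.U621.ZS

universe u v

/-- `x` has odd order -/
def OddEl {G : Type u} [Group G] (x : G) : Prop := ∃ k : ℕ, Odd k ∧ x ^ k = 1

section
variable {G : Type u} [Group G]

theorem OddEl.map {H : Type v} [Group H] (f : G →* H) {x : G} (h : OddEl x) : OddEl (f x) := by
  obtain ⟨k, hk, h⟩ := h
  exact ⟨k, hk, by rw [← map_pow, h, map_one]⟩

theorem OddEl.of_map {H : Type v} [Group H] (f : G →* H) (hf : Function.Injective f) {x : G}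
    (h : OddEl (f x)) : OddEl x := by
  obtain ⟨k, hk, h⟩ := h
  exact ⟨k, hk, hf (by rw [map_pow, h, map_one])⟩

theorem OddEl.inv {x : G} (h : OddEl x) : OddEl x⁻¹ := by
  obtain ⟨k, hk, h⟩ := h
  exact ⟨k, hk, by rw [inv_pow, h, inv_one]⟩

theorem OddEl.pow {x : G} (h : OddEl x) (n : ℕ) : OddEl (x ^ n) := by
  obtain ⟨k, hk, h⟩ := h
  exact ⟨k, hk, by rw [← pow_mul, mul_comm, pow_mul, h, one_pow]⟩

theorem OddEl.conj {x : G} (h : OddEl x) (g : G) : OddEl (g⁻¹ * x * g) := by
  obtain ⟨k, hk, h⟩ := h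
  refine ⟨k, hk, ?_⟩
  have : (g⁻¹ * x * g) ^ k = g⁻¹ * x ^ k * g := by
    have h2 := conj_pow (a := g⁻¹) (b := x) (i := k)
    rw [inv_inv] at h2
    exact h2
  rw [this, h]
  group

/-- an element of odd order has a square root among its powers -/
theorem OddEl.root {s : G} (h : OddEl s) : ∃ n : ℕ, (s ^ n) ^ 2 = s := by
  obtain ⟨k, ⟨j, hj⟩, h⟩ := h
  refine ⟨j + 1, ?_⟩
  rw [← pow_mul, show (j + 1) * 2 = k + 1 by omega, pow_succ, h, one_mul]

/-- elements of odd order with the same square are equal -/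
theorem OddEl.sq_inj {x y : G} (hx : OddEl x) (hy : OddEl y) (h : x ^ 2 = y ^ 2) : x = y := by
  obtain ⟨k, hk, h1⟩ := hx
  obtain ⟨l, hl, h2⟩ := hy
  obtain ⟨j, hj⟩ := hk.mul hl
  have e1 : x = (x ^ 2) ^ (j + 1) := by
    rw [← pow_mul, show 2 * (j + 1) = k * l + 1 by omega, pow_succ, pow_mul, h1, one_pow, one_mul]
  have e2 : y = (y ^ 2) ^ (j + 1) := by
    rw [← pow_mul, show 2 * (j + 1) = k * l + 1 by omega, pow_succ, mul_comm k l, pow_mul, h2,
      one_pow, one_mul]
  rw [e1, e2, h]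

theorem OddEl.eq_one_of_sq {x : G} (hx : OddEl x) (h : x ^ 2 = 1) : x = 1 :=
  hx.sq_inj ⟨1, odd_one, one_pow 1⟩ (by rw [h, one_pow])

/-- the elements of odd order inverted by `t` -/
def Inv (t : G) : Set G := {x | OddEl x ∧ t * x * t = x⁻¹}

/-- `t` is an isolated involution (or `1`), and any two elements of odd order inverted by `t` generate
a group of elements of odd order -/
structure Iso (t : G) : Prop where
  sq : t * t = 1
  odd : ∀ g : G, OddEl (t * (g⁻¹ * t * g))
  two : ∀ x y : G, x ∈ Inv t → y ∈ Inv t → ∀ z ∈ Subgroup.closure {x, y}, OddEl z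

theorem conj_mem {t : G} {x c : G} (hx : x ∈ Inv t) (hc : c * t = t * c) :
    c⁻¹ * x * c ∈ Inv t := by
  refine ⟨hx.1.conj c, ?_⟩
  have h1 : t * c⁻¹ = c⁻¹ * t := by
    rw [eq_inv_mul_iff_mul_eq, ← mul_assoc, hc, mul_assoc, mul_inv_cancel, mul_one]
  calc t * (c⁻¹ * x * c) * t = (t * c⁻¹) * x * (c * t) := by group
    _ = c⁻¹ * (t * x * t) * c := by rw [h1, hc]; group
    _ = (c⁻¹ * x * c)⁻¹ := by rw [hx.2]; group

theorem Iso.tinv {t : G} (h : Iso t) : t⁻¹ = t := by
  rw [inv_eq_iff_mul_eq_one, h.sq]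

/-- the decomposition -/
theorem Iso.dec {t : G} (h : Iso t) (g : G) : ∃ c v : G, c * t = t * c ∧ v ∈ Inv t ∧ g = c * v ∧
    ∃ n : ℕ, v = (t * (g⁻¹ * t * g)) ^ n := by
  set s := t * (g⁻¹ * t * g) with hs
  obtain ⟨n, hn⟩ := (h.odd g).root
  rw [← hs] at hn
  have hts : t * s * t = s⁻¹ := by
    rw [hs]
    simp only [mul_inv_rev, inv_inv, h.tinv]
    calc t * (t * (g⁻¹ * t * g)) * t = (t * t) * (g⁻¹ * t * g) * t := by group
      _ = g⁻¹ * (t * g) * t := by rw [h.sq]; group
  have htn : ∀ k : ℕ, t * s ^ k * t = (s ^ k)⁻¹ := by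
    intro k
    have h2 : (t * s * t⁻¹) ^ k = t * s ^ k * t⁻¹ := conj_pow
    rw [h.tinv, hts, inv_pow] at h2
    exact h2.symm
  have hv : s ^ n ∈ Inv t := ⟨(h.odd g).pow n, htn n⟩
  set v := s ^ n with hv'
  have e1 : v⁻¹ * t = t * v := by
    rw [← hv.2, mul_assoc, mul_assoc, h.sq, mul_one]
  have e2 : v⁻¹ * t * v = g⁻¹ * t * g := by
    calc v⁻¹ * t * v = t * v * v := by rw [e1]
      _ = t * (v ^ 2) := by rw [pow_two, mul_assoc]
      _ = t * s := by rw [hn]
      _ = g⁻¹ * t * g := by rw [hs, ← mul_assoc, h.sq, one_mul]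
  refine ⟨g * v⁻¹, v, ?_, hv, by group, n, rfl⟩
  have e3 : t = v * (g⁻¹ * t * g) * v⁻¹ := by rw [← e2]; group
  calc g * v⁻¹ * t = g * v⁻¹ * (v * (g⁻¹ * t * g) * v⁻¹) := by rw [← e3]
    _ = t * (g * v⁻¹) := by group

theorem Iso.uniq {t : G} (h : Iso t) {c c' v v' : G} (hc : c * t = t * c) (hc' : c' * t = t * c')
    (hv : v ∈ Inv t) (hv' : v' ∈ Inv t) (he : c * v = c' * v') : c = c' ∧ v = v' := by
  have h1 : v' * v⁻¹ = c'⁻¹ * c := by
    rw [eq_inv_mul_iff_mul_eq, ← mul_assoc, ← he, mul_assoc, mul_inv_cancel, mul_one]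
  have h2 : t * (v' * v⁻¹) * t = v' * v⁻¹ := by
    rw [h1]
    have e : t * c'⁻¹ = c'⁻¹ * t := by
      rw [eq_inv_mul_iff_mul_eq, ← mul_assoc, hc', mul_assoc, mul_inv_cancel, mul_one]
    calc t * (c'⁻¹ * c) * t = (t * c'⁻¹) * (c * t) := by group
      _ = c'⁻¹ * (t * t) * c := by rw [e, hc]; group
      _ = c'⁻¹ * c := by rw [h.sq, mul_one]
  have h3 : t * v⁻¹ * t = v := by
    have h4 : (t * v * t)⁻¹ = v := by rw [hv.2, inv_inv]
    conv_rhs => rw [← h4]
    simp only [mul_inv_rev, h.tinv]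
    group
  have h5 : v'⁻¹ * v = v' * v⁻¹ := by
    calc v'⁻¹ * v = (t * v' * t) * (t * v⁻¹ * t) := by rw [hv'.2, h3]
      _ = t * v' * (t * t) * v⁻¹ * t := by group
      _ = t * (v' * v⁻¹) * t := by rw [h.sq]; group
      _ = v' * v⁻¹ := h2
  have h6 : v ^ 2 = v' ^ 2 := by
    calc v ^ 2 = v' * (v'⁻¹ * v) * v := by rw [pow_two]; group
      _ = v' * (v' * v⁻¹) * v := by rw [h5]
      _ = v' ^ 2 := by rw [pow_two]; group
  have h7 : v = v' := hv.1.sq_inj hv'.1 h6
  refine ⟨?_, h7⟩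
  rw [h7] at he
  exact mul_right_cancel he

/-- the `c`-part of the product of two elements of `Inv t` has odd order -/
theorem Iso.mul_dec {t : G} (h : Iso t) {x y : G} (hx : x ∈ Inv t) (hy : y ∈ Inv t) :
    ∃ k w : G, k * t = t * k ∧ w ∈ Inv t ∧ x * y = k * w ∧ OddEl k := by
  obtain ⟨k, w, hk, hw, he, n, hn⟩ := h.dec (x * y)
  refine ⟨k, w, hk, hw, he, ?_⟩
  have hxc : x ∈ Subgroup.closure ({x, y} : Set G) := Subgroup.subset_closure (by simp)
  have hyc : y ∈ Subgroup.closure ({x, y} : Set G) := Subgroup.subset_closure (by simp)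
  have hwc : w ∈ Subgroup.closure ({x, y} : Set G) := by
    rw [hn]
    refine pow_mem ?_ n
    have e : t * ((x * y)⁻¹ * t * (x * y)) = y * x * (x * y) := by
      have h1 : t * x⁻¹ * t = x := by
        have h4 : (t * x * t)⁻¹ = x := by rw [hx.2, inv_inv]
        conv_rhs => rw [← h4]
        simp only [mul_inv_rev, h.tinv]
        group
      have h2 : t * y⁻¹ * t = y := by
        have h4 : (t * y * t)⁻¹ = y := by rw [hy.2, inv_inv]
        conv_rhs => rw [← h4]
        simp only [mul_inv_rev, h.tinv]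
        group
      calc t * ((x * y)⁻¹ * t * (x * y)) = t * y⁻¹ * (x⁻¹ * t) * (x * y) := by group
        _ = t * y⁻¹ * (t * t * x⁻¹ * t) * (x * y) := by rw [h.sq, one_mul]
        _ = (t * y⁻¹ * t) * (t * x⁻¹ * t) * (x * y) := by group
        _ = y * x * (x * y) := by rw [h1, h2]
    rw [e]
    exact mul_mem (mul_mem hyc hxc) (mul_mem hxc hyc)
  refine h.two x y hx hy k ?_
  have : k = x * y * w⁻¹ := by rw [he]; group
  rw [this]
  exact mul_mem (mul_mem hxc hyc) (inv_mem hwc)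

theorem mem_cent {t c : G} : c ∈ Subgroup.centralizer ({t} : Set G) ↔ c * t = t * c := by
  rw [Subgroup.mem_centralizer_singleton_iff]

/-- every homomorphism of the centraliser of `t` to a group without elements of odd order extends -/
theorem Iso.extend {t : G} (h : Iso t) {Q : Type v} [Group Q] (hQ : ∀ q : Q, OddEl q → q = 1)
    (χ : Subgroup.centralizer ({t} : Set G) →* Q) :
    ∃ ψ : G →* Q, ∀ c : Subgroup.centralizer ({t} : Set G), ψ c = χ c := by
  classical
  choose c v hc hv he _ using h.dec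
  let d : G → Subgroup.centralizer ({t} : Set G) := fun g => ⟨c g, mem_cent.2 (hc g)⟩
  have hmul : ∀ g g' : G, χ (d (g * g')) = χ (d g) * χ (d g') := by
    intro g g'
    obtain ⟨k, w, hk, hw, hkw, hko⟩ := h.mul_dec (conj_mem (hv g) (hc g')) (hv g')
    have e1 : c (g * g') * v (g * g') = (c g * c g' * k) * w := by
      rw [← he]
      calc g * g' = (c g * v g) * (c g' * v g') := by rw [← he g, ← he g']
        _ = c g * c g' * (((c g')⁻¹ * v g * c g') * v g') := by group
        _ = c g * c g' * (k * w) := by rw [hkw]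
        _ = _ := by group
    have e2 : (c g * c g' * k) * t = t * (c g * c g' * k) := by
      calc (c g * c g' * k) * t = c g * c g' * (k * t) := by group
        _ = c g * (c g' * t) * k := by rw [hk]; group
        _ = (c g * t) * c g' * k := by rw [hc g']; group
        _ = t * (c g * c g' * k) := by rw [hc g]; group
    have e3 := (h.uniq (hc (g * g')) e2 (hv (g * g')) hw e1).1
    have e4 : d (g * g') = d g * d g' * ⟨k, mem_cent.2 hk⟩ := Subtype.ext e3
    have e5 : χ ⟨k, mem_cent.2 hk⟩ = 1 := by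
      refine hQ _ (OddEl.map χ ?_)
      exact OddEl.of_map (Subgroup.centralizer ({t} : Set G)).subtype
        (Subgroup.subtype_injective _) hko
    rw [e4, map_mul, map_mul, e5, mul_one]
  refine ⟨MonoidHom.mk' (fun g => χ (d g)) hmul, fun x => ?_⟩
  have h1 : c (x : G) = x := by
    have h2 : (x : G) * t = t * x := mem_cent.1 x.2
    have h3 : (1 : G) ∈ Inv t := ⟨⟨1, odd_one, one_pow 1⟩, by rw [mul_one, h.sq, inv_one]⟩
    exact (h.uniq (hc x) h2 (hv x) h3 (by rw [← he, mul_one])).1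
  change χ (d (x : G)) = χ x
  congr 1
  exact Subtype.ext h1

/-- the extension is unique -/
theorem Iso.unique {t : G} (h : Iso t) {Q : Type v} [Group Q] (hQ : ∀ q : Q, OddEl q → q = 1)
    (ψ ψ' : G →* Q) (hψ : ∀ c : G, c * t = t * c → ψ c = ψ' c) : ψ = ψ' := by
  ext g
  obtain ⟨c, v, hc, hv, he, -⟩ := h.dec g
  rw [he, map_mul, map_mul, hψ c hc, hQ _ (hv.1.map ψ), hQ _ (hv.1.map ψ')]

/-- every involution is conjugate to an element of the centraliser of `t` -/
theorem Iso.conj_cent {t : G} (h : Iso t) {s : G} (hs : s * s = 1) :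
    ∃ g : G, (g⁻¹ * s * g) * t = t * (g⁻¹ * s * g) := by
  have hsi : s⁻¹ = s := by rw [inv_eq_iff_mul_eq_one, hs]
  obtain ⟨k, ⟨j, hj⟩, hk⟩ := h.odd s
  set w := t * s with hw
  have e1 : t * (s⁻¹ * t * s) = w ^ 2 := by
    rw [hsi, pow_two, hw]
    group
  rw [e1, ← pow_mul] at hk
  have e2 : s * w * s = w⁻¹ := by
    rw [hw, mul_inv_rev, hsi, h.tinv]
    calc s * (t * s) * s = s * t * (s * s) := by group
      _ = s * t := by rw [hs, mul_one]
  have e3 : t * w * t = w⁻¹ := by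
    rw [hw, mul_inv_rev, hsi, h.tinv]
    calc t * (t * s) * t = (t * t) * s * t := by group
      _ = s * t := by rw [h.sq, one_mul]
  have e4 : ∀ n : ℕ, s * w ^ n * s = (w ^ n)⁻¹ := by
    intro n
    have h2 : (s * w * s⁻¹) ^ n = s * w ^ n * s⁻¹ := conj_pow
    rw [hsi, e2, inv_pow] at h2
    exact h2.symm
  have e5 : ∀ n : ℕ, t * w ^ n * t = (w ^ n)⁻¹ := by
    intro n
    have h2 : (t * w * t⁻¹) ^ n = t * w ^ n * t⁻¹ := conj_pow
    rw [h.tinv, e3, inv_pow] at h2
    exact h2.symm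
  refine ⟨w ^ j, ?_⟩
  have e6 : (w ^ j)⁻¹ * s = s * w ^ j := by
    rw [← e4, mul_assoc, mul_assoc, hs, mul_one]
  have e7 : (w ^ j)⁻¹ * s * w ^ j = s * w ^ (2 * j) := by
    rw [e6, two_mul, pow_add, mul_assoc]
  rw [e7]
  have e8 : t * (s * w ^ (2 * j)) = w ^ k := by
    rw [hj, pow_succ', hw]
    group
  have e9 : s * w ^ (2 * j) * t = (w ^ k)⁻¹ := by
    have h1 : s * t = w⁻¹ := by rw [hw, mul_inv_rev, hsi, h.tinv]
    have h2 : w ^ (2 * j) * t = t * (w ^ (2 * j))⁻¹ := by
      rw [← e5, ← mul_assoc, ← mul_assoc, h.sq, one_mul]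
    rw [mul_assoc, h2, ← mul_assoc, h1, ← mul_inv_rev, hj, pow_succ]
  rw [e8, e9, inv_eq_iff_mul_eq_one, ← pow_two, ← pow_mul, mul_comm k 2, hk]

end

end Pool.Agent.U621.ZS
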