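import Mathlib
import Pool.Agent.U621.ZS.Ext

set_option autoImplicit false

/-!
# Products of elements of odd order: reduction to centralisers of finite `2`-subgroups
-/

namespace Pool.Agent.U621.ZS

universe u v

/-- the elements of odd order of a group of exponent `2 m`, `m` odd -/
theorem oddEl_iff {G : Type u} [Group G] {m : ℕ} (hm : Odd m) (hG : ∀ x : G, x ^ (2 * m) = 1)
    {x : G} : OddEl x ↔ x ^ m = 1 := by
  constructor
  · rintro ⟨k, hk, h⟩
    have h1 : orderOf x ∣ k := orderOf_dvd_of_pow_eq_one h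
    have h2 : orderOf x ∣ 2 * m := orderOf_dvd_of_pow_eq_one (hG x)
    have h3 : Nat.Coprime (orderOf x) 2 := by
      have : Odd (orderOf x) := Odd.of_dvd_nat hk h1
      exact Nat.coprime_two_right.2 this
    exact orderOf_dvd_iff_pow_eq_one.1 (h3.dvd_of_dvd_mul_left h2)
  · exact fun h => ⟨m, hm, h⟩

/-- all elements with trivial square are isolated -/
def Isol (G : Type u) [Group G] : Prop := ∀ t : G, t ^ 2 = 1 → Iso t

/-- products of elements with trivial `m`-th power which commute with all elements of `A` have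
trivial `m`-th power -/
def ProdIn {G : Type u} [Group G] (m : ℕ) (A : Set G) : Prop :=
  ∀ x y : G, (∀ a ∈ A, x * a = a * x) → (∀ a ∈ A, y * a = a * y) → x ^ m = 1 → y ^ m = 1 →
    (x * y) ^ m = 1

theorem Iso.of_map {H : Type v} [Group H] {G : Type u} [Group G] (f : H →* G)
    (hf : Function.Injective f) {t : H} (h : Iso (f t)) : Iso t := by
  refine ⟨hf (by rw [map_mul, h.sq, map_one]), fun g => ?_, fun x y hx hy z hz => ?_⟩
  · refine OddEl.of_map f hf ?_
    simpa only [map_mul, map_inv] using h.odd (f g)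
  · refine OddEl.of_map f hf (h.two (f x) (f y) ⟨hx.1.map f, ?_⟩ ⟨hy.1.map f, ?_⟩ (f z) ?_)
    · rw [← map_mul, ← map_mul, hx.2, map_inv]
    · rw [← map_mul, ← map_mul, hy.2, map_inv]
    · have : f z ∈ (Subgroup.closure {x, y}).map f := Subgroup.mem_map_of_mem f hz
      rwa [MonoidHom.map_closure, Set.image_pair] at this

theorem Isol.sub {G : Type u} [Group G] (h : Isol G) (H : Subgroup G) : Isol H := by
  intro t ht
  refine Iso.of_map H.subtype H.subtype_injective (h _ ?_)
  have := congrArg H.subtype ht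
  simpa using this

/-- one step -/
theorem step {G : Type u} [Group G] {m : ℕ} (hm : Odd m) (hG : ∀ x : G, x ^ (2 * m) = 1) {t : G}
    (h : Iso t) (hC : ProdIn m ({t} : Set G)) :
    ∀ x y : G, x ^ m = 1 → y ^ m = 1 → (x * y) ^ m = 1 := by
  have hC' : ∀ x y : Subgroup.centralizer ({t} : Set G), x ^ m = 1 → y ^ m = 1 →
      (x * y) ^ m = 1 := by
    intro x y hx hy
    apply Subtype.ext
    have h1 := congrArg Subtype.val hx
    have h2 := congrArg Subtype.val hy
    have := hC x y (fun a ha => by rw [Set.mem_singleton_iff.1 ha]; exact mem_cent.1 x.2)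
      (fun a ha => by rw [Set.mem_singleton_iff.1 ha]; exact mem_cent.1 y.2) (by simpa using h1)
      (by simpa using h2)
    simpa using this
  let O : Subgroup (Subgroup.centralizer ({t} : Set G)) :=
    { carrier := {x | x ^ m = 1}
      one_mem' := one_pow _
      mul_mem' := fun {x y} hx hy => hC' x y hx hy
      inv_mem' := fun {x} hx => by
        change x⁻¹ ^ m = 1
        rw [inv_pow, show x ^ m = 1 from hx, inv_one] }
  have hO : O.Normal := ⟨fun x hx g => by
    change (g * x * g⁻¹) ^ m = 1
    rw [conj_pow, show x ^ m = 1 from hx, mul_one, mul_inv_cancel]⟩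
  have hsq : ∀ q : (Subgroup.centralizer ({t} : Set G)) ⧸ O, q ^ 2 = 1 := by
    intro q
    obtain ⟨x, rfl⟩ := QuotientGroup.mk_surjective q
    rw [← QuotientGroup.mk_pow, QuotientGroup.eq_one_iff]
    change (x ^ 2) ^ m = 1
    rw [← pow_mul]
    exact Subtype.ext (by simpa using hG x)
  have hQ : ∀ q : (Subgroup.centralizer ({t} : Set G)) ⧸ O, OddEl q → q = 1 := fun q hq =>
    hq.eq_one_of_sq (hsq q)
  obtain ⟨ψ, hψ⟩ := h.extend hQ (QuotientGroup.mk' O)
  intro x y hx hy
  have h1 : ψ (x * y) = 1 := by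
    rw [map_mul, hQ _ (OddEl.map ψ ⟨m, hm, hx⟩), hQ _ (OddEl.map ψ ⟨m, hm, hy⟩), one_mul]
  set s := (x * y) ^ m with hs
  have hs2 : s * s = 1 := by
    rw [← pow_two, hs, ← pow_mul, mul_comm m 2]
    exact hG _
  have h2 : ψ s = 1 := by rw [hs, map_pow, h1, one_pow]
  obtain ⟨g, hg⟩ := h.conj_cent hs2
  have h3 := hψ ⟨g⁻¹ * s * g, mem_cent.2 hg⟩
  have h4 : ψ (g⁻¹ * s * g) = 1 := by
    rw [map_mul, map_mul, h2, mul_one, ← map_mul, inv_mul_cancel, map_one]
  have h5 : (⟨g⁻¹ * s * g, mem_cent.2 hg⟩ : Subgroup.centralizer ({t} : Set G)) ∈ O := by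
    rw [← QuotientGroup.eq_one_iff]
    exact h3.symm.trans h4
  have h6 : (g⁻¹ * s * g) ^ m = 1 := by
    have := congrArg Subtype.val (show (⟨g⁻¹ * s * g, mem_cent.2 hg⟩ :
      Subgroup.centralizer ({t} : Set G)) ^ m = 1 from h5)
    simpa using this
  have h7 : OddEl s := by
    have h8 : OddEl (g⁻¹ * s * g) := ⟨m, hm, h6⟩
    have h9 := h8.conj g⁻¹
    have e : (g⁻¹)⁻¹ * (g⁻¹ * s * g) * g⁻¹ = s := by group
    rwa [e] at h9
  exact h7.eq_one_of_sq (by rw [pow_two, hs2])

/-- all steps -/
theorem steps {m : ℕ} (hm : Odd m) : ∀ (n : ℕ) (G : Type u) [Group G], (∀ x : G, x ^ (2 * m) = 1) →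
    Isol G → ∀ l : List G, l.length = n → (∀ a ∈ l, a ^ 2 = 1) →
    (∀ a ∈ l, ∀ b ∈ l, a * b = b * a) → ProdIn m {a | a ∈ l} →
    ∀ x y : G, x ^ m = 1 → y ^ m = 1 → (x * y) ^ m = 1 := by
  intro n
  induction n with
  | zero =>
    intro G _ hG hI l hl _ _ hC x y hx hy
    have : l = [] := List.length_eq_zero_iff.1 hl
    subst this
    exact hC x y (fun a ha => by simp at ha) (fun a ha => by simp at ha) hx hy
  | succ n ih =>
    intro G _ hG hI l hl h2 hc hC
    match l, hl with
    | t :: l', hl =>
      have hl' : l'.length = n := by simpa using hl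
      have ht : Iso t := hI t (h2 t (by simp))
      refine step hm hG ht ?_
      have hmem : ∀ a ∈ l', a ∈ Subgroup.centralizer ({t} : Set G) := fun a ha =>
        mem_cent.2 (hc a (by simp [ha]) t (by simp))
      let L : List (Subgroup.centralizer ({t} : Set G)) := l'.pmap (fun a ha => ⟨a, ha⟩) hmem
      have hL : ∀ b ∈ L, (b : G) ∈ l' := by
        intro b hb
        obtain ⟨a, ha, rfl⟩ := List.mem_pmap.1 hb
        exact ha
      have hL2 : ∀ (a : G) (ha : a ∈ l'),
          (⟨a, hmem a ha⟩ : Subgroup.centralizer ({t} : Set G)) ∈ L := fun a ha =>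
        List.mem_pmap.2 ⟨a, ha, rfl⟩
      have key := ih (Subgroup.centralizer ({t} : Set G))
        (fun x => Subtype.ext (by simpa using hG x)) (hI.sub _) L
        (by rw [List.length_pmap, hl'])
        (fun b hb => Subtype.ext (by simpa using h2 b (by simp [hL b hb])))
        (fun a ha b hb => Subtype.ext (by
          simpa using hc a (by simp [hL a ha]) b (by simp [hL b hb])))
        ?_
      · intro x y hx hy hxm hym
        have := key ⟨x, mem_cent.2 (hx t rfl)⟩ ⟨y, mem_cent.2 (hy t rfl)⟩
          (Subtype.ext (by simpa using hxm)) (Subtype.ext (by simpa using hym))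
        have := congrArg Subtype.val this
        simpa using this
      · intro x y hx hy hxm hym
        apply Subtype.ext
        have hx' : ∀ a ∈ ({a | a ∈ t :: l'} : Set G), (x : G) * a = a * x := by
          intro a ha
          rcases List.mem_cons.1 ha with rfl | ha
          · exact mem_cent.1 x.2
          · have := congrArg Subtype.val (hx _ (hL2 a ha))
            simpa using this
        have hy' : ∀ a ∈ ({a | a ∈ t :: l'} : Set G), (y : G) * a = a * y := by
          intro a ha
          rcases List.mem_cons.1 ha with rfl | ha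
          · exact mem_cent.1 y.2
          · have := congrArg Subtype.val (hy _ (hL2 a ha))
            simpa using this
        have h3 := congrArg Subtype.val hxm
        have h4 := congrArg Subtype.val hym
        have := hC x y hx' hy' (by simpa using h3) (by simpa using h4)
        simpa using this

/-- reduction to the centraliser of a finite subgroup of exponent `2` -/
theorem prod_of_finite {m : ℕ} (hm : Odd m) (G : Type u) [Group G] (hG : ∀ x : G, x ^ (2 * m) = 1)
    (hI : Isol G) (A : Subgroup G) [hA : Finite A] (hA2 : ∀ a ∈ A, a ^ 2 = 1)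
    (hC : ProdIn m (A : Set G)) : ∀ x y : G, x ^ m = 1 → y ^ m = 1 → (x * y) ^ m = 1 := by
  classical
  have hfin : (A : Set G).Finite := hA
  have hmem : ∀ a : G, a ∈ hfin.toFinset.toList ↔ a ∈ A := fun a => by simp
  refine steps hm _ G hG hI hfin.toFinset.toList rfl (fun a ha => hA2 a ((hmem a).1 ha)) ?_ ?_
  · intro a ha b hb
    have ha := (hmem a).1 ha
    have hb := (hmem b).1 hb
    have h1 : a⁻¹ = a := by rw [inv_eq_iff_mul_eq_one, ← pow_two, hA2 a ha]
    have h2 : b⁻¹ = b := by rw [inv_eq_iff_mul_eq_one, ← pow_two, hA2 b hb]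
    have h3 : (a * b)⁻¹ = a * b := by
      rw [inv_eq_iff_mul_eq_one, ← pow_two, hA2 _ (mul_mem ha hb)]
    rw [mul_inv_rev, h1, h2] at h3
    exact h3.symm
  · intro x y hx hy
    exact hC x y (fun a ha => hx a ((hmem a).2 ha)) (fun a ha => hy a ((hmem a).2 ha))

end Pool.Agent.U621.ZS
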