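import Mathlib
import Pool.Agent.U621.ZS.Step
import Pool.Agent.W629.TwiceLF

set_option autoImplicit false

/-!
# Three involutions generating soluble groups make all involutions isolated
-/

namespace Pool.Agent.U621.ZS

open Pool.Agent.W629

universe u v

/-- any three conjugate elements with trivial square generate a soluble subgroup -/
def Three (G : Type u) [Group G] : Prop :=
  ∀ t g h : G, t ^ 2 = 1 → Group.IsSolvable (Subgroup.closure {t, g⁻¹ * t * g, h⁻¹ * t * h})

/-- a soluble group of exponent `2 m` generated by involutions is commutative modulo `Rad m` -/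
theorem quot_comm {m : ℕ} (hm : Nat.Coprime m 2) {K : Type u} [Group K]
    (hG : ∀ x : K, x ^ (m * 2) = 1) (hs : Group.IsSolvable K)
    (hgen : Subgroup.closure {x : K | x ^ 2 = 1} = ⊤) (x y : K) :
    (x : K ⧸ Rad m K) * y = y * x := by
  have c1 : ∀ x y : K, x ^ 2 = 1 → y ^ 2 = 1 → (x : K ⧸ Rad m K) * y = y * x := by
    intro x y hx hy
    refine invol_mul_comm (by rw [← QuotientGroup.mk_pow, hx]; rfl)
      (by rw [← QuotientGroup.mk_pow, hy]; rfl) ?_
    rw [← QuotientGroup.mk_mul, ← QuotientGroup.mk_pow, QuotientGroup.eq_one_iff]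
    exact sq_mem_rad hm hG hs hx hy
  have c2 : ∀ x y : K, x ^ 2 = 1 → (x : K ⧸ Rad m K) * y = y * x := by
    intro x y hx
    have hy : y ∈ Subgroup.closure {x : K | x ^ 2 = 1} := by rw [hgen]; trivial
    induction hy using Subgroup.closure_induction with
    | mem y hy => exact c1 x y hx hy
    | one => simp
    | mul a b _ _ ha hb =>
      rw [QuotientGroup.mk_mul, ← mul_assoc, ha, mul_assoc, hb, mul_assoc]
    | inv a _ ha =>
      rw [QuotientGroup.mk_inv, mul_inv_eq_iff_eq_mul, mul_assoc, ha, inv_mul_cancel_left]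
  have hy : x ∈ Subgroup.closure {x : K | x ^ 2 = 1} := by rw [hgen]; trivial
  induction hy using Subgroup.closure_induction with
  | mem x hx => exact c2 x y hx
  | one => simp
  | mul a b _ _ ha hb =>
    rw [QuotientGroup.mk_mul, mul_assoc, hb, ← mul_assoc, ha, mul_assoc]
  | inv a _ ha =>
    rw [QuotientGroup.mk_inv, inv_mul_eq_iff_eq_mul, ← mul_assoc, ha, mul_assoc,
      mul_inv_cancel, mul_one]

/-- in a soluble group of exponent `2 m` generated by involutions the elements of odd order lie in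
`Rad m` -/
theorem odd_rad {m : ℕ} (hm : Nat.Coprime m 2) {K : Type u} [Group K]
    (hG : ∀ x : K, x ^ (m * 2) = 1) (hs : Group.IsSolvable K)
    (hgen : Subgroup.closure {x : K | x ^ 2 = 1} = ⊤) {z : K} (hz : z ^ m = 1) : z ∈ Rad m K := by
  have c4 : ∀ x : K, (x : K ⧸ Rad m K) ^ 2 = 1 := by
    intro x
    have hy : x ∈ Subgroup.closure {x : K | x ^ 2 = 1} := by rw [hgen]; trivial
    induction hy using Subgroup.closure_induction with
    | mem x hx => rw [← QuotientGroup.mk_pow, show x ^ 2 = 1 from hx]; rfl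
    | one => simp
    | mul a b _ _ ha hb =>
      have hc : Commute (a : K ⧸ Rad m K) b := quot_comm hm hG hs hgen a b
      rw [QuotientGroup.mk_mul, hc.mul_pow, ha, hb, one_mul]
    | inv a _ ha => rw [QuotientGroup.mk_inv, inv_pow, ha, inv_one]
  have h1 := c4 z
  have h2 : (z : K ⧸ Rad m K) ^ m = 1 := by rw [← QuotientGroup.mk_pow, hz]; rfl
  have h3 := eq_one_of_coprime hm h2 h1
  exact (QuotientGroup.eq_one_iff z).1 h3

theorem closure_sub {G : Type u} [Group G] (S : Set G) (hS : ∀ x ∈ S, x ^ 2 = 1) :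
    Subgroup.closure {x : Subgroup.closure S | x ^ 2 = 1} = ⊤ := by
  rw [eq_top_iff, ← Subgroup.closure_closure_coe_preimage (k := S)]
  refine Subgroup.closure_mono ?_
  intro x hx
  exact Subtype.ext (by simpa using hS x hx)

/-- elements of odd order in a group generated by involutions which is soluble -/
theorem odd_closure {G : Type u} [Group G] {m : ℕ} (hm : Odd m) (hG : ∀ x : G, x ^ (2 * m) = 1)
    (S : Set G) (hS : ∀ x ∈ S, x ^ 2 = 1) (hs : Group.IsSolvable (Subgroup.closure S)) :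
    ∃ R : Subgroup G, (∀ x ∈ R, x ^ m = 1) ∧ ∀ x ∈ Subgroup.closure S, x ^ m = 1 → x ∈ R := by
  have hc : Nat.Coprime m 2 := Nat.coprime_two_right.2 hm
  have hK : ∀ x : Subgroup.closure S, x ^ (m * 2) = 1 := by
    intro x
    rw [mul_comm]
    exact exp_sub hG _ x
  refine ⟨(Rad m (Subgroup.closure S)).map (Subgroup.closure S).subtype, ?_, ?_⟩
  · rintro x ⟨y, hy, rfl⟩
    rw [← map_pow, hy.1, map_one]
  · intro x hx hxm
    exact ⟨⟨x, hx⟩, odd_rad hc hK hs (closure_sub S hS) (Subtype.ext (by simpa using hxm)), rfl⟩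

/-- transitivity -/
theorem trans_rel {G : Type u} [Group G] {m : ℕ} (hm : Odd m) (hG : ∀ x : G, x ^ (2 * m) = 1)
    (h3 : Three G) {t x z : G} (ht : t ^ 2 = 1)
    (hab : (t * (x⁻¹ * t * x)) ^ m = 1) (hbc : ((x⁻¹ * t * x) * (z⁻¹ * t * z)) ^ m = 1) :
    (t * (z⁻¹ * t * z)) ^ m = 1 := by
  have hx : (x⁻¹ * t * x) ^ 2 = 1 := conj_pow_one' ht
  have hz : (z⁻¹ * t * z) ^ 2 = 1 := conj_pow_one' ht
  obtain ⟨R, hR, hR2⟩ := odd_closure hm hG {t, x⁻¹ * t * x, z⁻¹ * t * z} (by
    intro w hw
    simp only [Set.mem_insert_iff, Set.mem_singleton_iff] at hw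
    rcases hw with rfl | rfl | rfl <;> assumption) (h3 t x z ht)
  have ma : t ∈ Subgroup.closure ({t, x⁻¹ * t * x, z⁻¹ * t * z} : Set G) :=
    Subgroup.subset_closure (by simp)
  have mb : x⁻¹ * t * x ∈ Subgroup.closure ({t, x⁻¹ * t * x, z⁻¹ * t * z} : Set G) :=
    Subgroup.subset_closure (by simp)
  have mc : z⁻¹ * t * z ∈ Subgroup.closure ({t, x⁻¹ * t * x, z⁻¹ * t * z} : Set G) :=
    Subgroup.subset_closure (by simp)
  have e : t * (z⁻¹ * t * z) = (t * (x⁻¹ * t * x)) * ((x⁻¹ * t * x) * (z⁻¹ * t * z)) := by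
    calc t * (z⁻¹ * t * z) = t * (x⁻¹ * t * x) ^ 2 * (z⁻¹ * t * z) := by rw [hx, mul_one]
      _ = _ := by rw [pow_two]; group
  rw [e]
  exact hR _ (mul_mem (hR2 _ (mul_mem ma mb) hab) (hR2 _ (mul_mem mb mc) hbc))

theorem pow_comm_one {G : Type u} [Group G] {m : ℕ} {a b : G} (h : (a * b) ^ m = 1) :
    (b * a) ^ m = 1 := by
  have : b * a = b * (a * b) * b⁻¹ := by group
  rw [this, conj_pow, h]
  group

/-- in a group generated by involutions the product of two conjugate involutions has odd order -/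
theorem conj_rel {G : Type u} [Group G] {m : ℕ} (hm : Odd m) (hG : ∀ x : G, x ^ (2 * m) = 1)
    (h3 : Three G) (hgen : Subgroup.closure {x : G | x ^ 2 = 1} = ⊤) (g : G) :
    ∀ t : G, t ^ 2 = 1 → (t * (g⁻¹ * t * g)) ^ m = 1 := by
  have hg : g ∈ Subgroup.closure {x : G | x ^ 2 = 1} := by rw [hgen]; trivial
  have sqc : ∀ (t g : G), t ^ 2 = 1 → (g⁻¹ * t * g) ^ 2 = 1 := by
    intro t g ht
    exact conj_pow_one' ht
  induction hg using Subgroup.closure_induction with
  | mem c hc =>
    intro t _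
    have hci : c⁻¹ = c := by rw [inv_eq_iff_mul_eq_one, ← pow_two, show c ^ 2 = 1 from hc]
    have e : t * (c⁻¹ * t * c) = (t * c) ^ 2 := by rw [hci, pow_two]; group
    rw [e, ← pow_mul, hG]
  | one =>
    intro t ht
    have e : t * ((1 : G)⁻¹ * t * 1) = 1 := by
      rw [inv_one, one_mul, mul_one, ← pow_two, ht]
    rw [e, one_pow]
  | mul x y _ _ hx hy =>
    intro t ht
    have h1 := hx t ht
    have h2 := hy (x⁻¹ * t * x) (sqc t x ht)
    have e : y⁻¹ * (x⁻¹ * t * x) * y = (x * y)⁻¹ * t * (x * y) := by group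
    rw [e] at h2
    exact trans_rel hm hG h3 ht h1 h2
  | inv x _ hx =>
    intro t ht
    have ht' : (x * t * x⁻¹) ^ 2 = 1 := conj_pow_one ht
    have h1 := hx (x * t * x⁻¹) ht'
    have e : x⁻¹ * (x * t * x⁻¹) * x = t := by group
    rw [e] at h1
    have h2 := pow_comm_one h1
    rwa [inv_inv]

/-- all involutions are isolated -/
theorem isol {G : Type u} [Group G] {m : ℕ} (hm : Odd m) (hG : ∀ x : G, x ^ (2 * m) = 1)
    (h3 : Three G) (hgen : Subgroup.closure {x : G | x ^ 2 = 1} = ⊤) : Isol G := by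
  intro t ht
  refine ⟨by rw [← pow_two, ht], fun g => ⟨m, hm, conj_rel hm hG h3 hgen g t ht⟩,
    fun x y hx hy z hz => ?_⟩
  have sq1 : ∀ w : G, w ∈ Inv t → ∃ g : G, g⁻¹ * t * g = t * w := by
    intro w hw
    obtain ⟨n, hn⟩ := hw.1.root
    have hti : t⁻¹ = t := by rw [inv_eq_iff_mul_eq_one, ← pow_two, ht]
    have htn : t * w ^ n * t = (w ^ n)⁻¹ := by
      have h2 : (t * w * t⁻¹) ^ n = t * w ^ n * t⁻¹ := conj_pow
      rw [hti, hw.2, inv_pow] at h2
      exact h2.symm
    refine ⟨w ^ n, ?_⟩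
    calc (w ^ n)⁻¹ * t * w ^ n = t * w ^ n * (t * t) * w ^ n := by rw [← htn]; group
      _ = t * (w ^ n) ^ 2 := by rw [← pow_two, ht, mul_one, mul_assoc, ← pow_two]
      _ = t * w := by rw [hn]
  obtain ⟨g, hg⟩ := sq1 x hx
  obtain ⟨h, hh⟩ := sq1 y hy
  have hs := h3 t g h ht
  have hg2 : (t * x) ^ 2 = 1 := by rw [← hg]; exact conj_pow_one' ht
  have hh2 : (t * y) ^ 2 = 1 := by rw [← hh]; exact conj_pow_one' ht
  rw [hg, hh] at hs
  obtain ⟨R, hR, hR2⟩ := odd_closure hm hG {t, t * x, t * y} (by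
    intro w hw
    simp only [Set.mem_insert_iff, Set.mem_singleton_iff] at hw
    rcases hw with rfl | rfl | rfl
    · exact ht
    · exact hg2
    · exact hh2) hs
  have mt : t ∈ Subgroup.closure ({t, t * x, t * y} : Set G) := Subgroup.subset_closure (by simp)
  have mem1 : ∀ w : G, t * w ∈ Subgroup.closure ({t, t * x, t * y} : Set G) →
      w ∈ Subgroup.closure ({t, t * x, t * y} : Set G) := by
    intro w hw
    have := mul_mem (inv_mem mt) hw
    rwa [inv_mul_cancel_left] at this
  have mx : x ∈ R := hR2 _ (mem1 x (Subgroup.subset_closure (by simp)))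
    ((oddEl_iff hm hG).1 hx.1)
  have my : y ∈ R := hR2 _ (mem1 y (Subgroup.subset_closure (by simp)))
    ((oddEl_iff hm hG).1 hy.1)
  have hz' : z ∈ R := by
    refine (Subgroup.closure_le R).2 ?_ hz
    intro w hw
    simp only [Set.mem_insert_iff, Set.mem_singleton_iff] at hw
    rcases hw with rfl | rfl
    · exact mx
    · exact my
  exact ⟨m, hm, hR z hz'⟩

/-- condition (a): elements of odd order generating a soluble group, in a group with isolated
involutions -/
theorem prod_of_solv {G : Type u} [Group G] {m : ℕ} (hm : Odd m) (hG : ∀ x : G, x ^ (2 * m) = 1)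
    (hI : Isol G) {x y : G} (hx : x ^ m = 1) (hy : y ^ m = 1)
    (hs : Group.IsSolvable (Subgroup.closure {x, y})) : (x * y) ^ m = 1 := by
  have hc : Nat.Coprime m 2 := Nat.coprime_two_right.2 hm
  have hK : ∀ z : Subgroup.closure ({x, y} : Set G), z ^ (m * 2) = 1 := by
    intro z
    rw [mul_comm]
    exact exp_sub hG _ z
  have key : ∀ z : Subgroup.closure ({x, y} : Set G), z ^ m = 1 →
      z ∈ Rad m (Subgroup.closure ({x, y} : Set G)) := by
    intro z hz
    by_contra hcon
    obtain ⟨t, ht, ht2⟩ := exists_invol hc hK hs hz hcon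
    refine ht2 ?_
    have h1 : (t : G) ^ 2 = 1 := by
      have := congrArg Subtype.val ht
      simpa using this
    have h2 := (oddEl_iff hm hG).1 ((hI (t : G) h1).odd (z : G))
    exact Subtype.ext (by simpa using h2)
  have mx : x ∈ Subgroup.closure ({x, y} : Set G) := Subgroup.subset_closure (by simp)
  have my : y ∈ Subgroup.closure ({x, y} : Set G) := Subgroup.subset_closure (by simp)
  have h1 := key ⟨x, mx⟩ (Subtype.ext (by simpa using hx))
  have h2 := key ⟨y, my⟩ (Subtype.ext (by simpa using hy))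
  have h3 := (mul_mem h1 h2).1
  have := congrArg Subtype.val h3
  simpa using this

end Pool.Agent.U621.ZS
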