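import Mathlib
import Pool.Agent.U621.ZS.Three

set_option autoImplicit false

/-!
# Finiteness: centralisers, series
-/

namespace Pool.Agent.U621.ZS

open Pool.Agent.W629 Pool.Agent.H32BU

universe u v

/-- a finitely generated group of exponent `n ∈ 𝓛` is finite -/
theorem fin_of_fg {n : ℕ} (hL : InL.{u} n) (K : Type u) [Group K] (hfg : Group.FG K)
    (hK : ∀ x : K, x ^ n = 1) : Finite K := by
  obtain ⟨S, hS⟩ := Group.fg_def.1 hfg
  have h := hL K hK (S : Set K) S.finite_toSet
  rw [hS] at h
  exact Finite.of_equiv _ (Subgroup.topEquiv (G := K)).toEquiv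

theorem fin_of_quot {K : Type u} [Group K] (N : Subgroup K) [Finite N] [Finite (K ⧸ N)] :
    Finite K :=
  Finite.of_equiv _ (Subgroup.groupEquivQuotientProdSubgroup (s := N)).symm

theorem fg_of_fin_quot {K : Type u} [Group K] (hfg : Group.FG K) (N : Subgroup K)
    [Finite (K ⧸ N)] : Group.FG N := by
  have : N.FiniteIndex := Subgroup.finiteIndex_of_finite_quotient
  have hfg' := hfg
  exact Subgroup.fg_of_index_ne_zero N

theorem inL_two : InL.{u} 2 := (inL_iff x_LFD 2).2 (x_LFD.1 4 2 (by norm_num) x_L34.2)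

/-- a finitely generated group with a normal series with factors of exponents `m`, `2`, `m` is
finite -/
theorem fin_series {m : ℕ} (hL : InL.{u} m) (H : Type u) [Group H] (hfg : Group.FG H)
    (R K : Subgroup H) [R.Normal] [K.Normal] (h1 : ∀ x ∈ R, x ^ m = 1)
    (h2 : ∀ x ∈ K, x ^ 2 ∈ R) (h3 : ∀ x : H, x ^ m ∈ K) : Finite H := by
  have f1 : Finite (H ⧸ K) := by
    refine fin_of_fg hL _ ?_ fun q => ?_
    · have := hfg
      infer_instance
    · obtain ⟨x, rfl⟩ := QuotientGroup.mk_surjective q
      rw [← QuotientGroup.mk_pow, QuotientGroup.eq_one_iff]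
      exact h3 x
  have g1 : Group.FG K := fg_of_fin_quot hfg K
  have f2 : Finite (K ⧸ R.subgroupOf K) := by
    refine fin_of_fg inL_two _ ?_ fun q => ?_
    · infer_instance
    · obtain ⟨x, rfl⟩ := QuotientGroup.mk_surjective q
      rw [← QuotientGroup.mk_pow, QuotientGroup.eq_one_iff, Subgroup.mem_subgroupOf]
      simpa using h2 x x.2
  have g2 : Group.FG (R.subgroupOf K) := fg_of_fin_quot g1 _
  have f3 : Finite (R.subgroupOf K) := by
    refine fin_of_fg hL _ g2 fun x => ?_
    apply Subtype.ext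
    apply Subtype.ext
    have := h1 _ (Subgroup.mem_subgroupOf.1 x.2)
    simpa using this
  have f4 : Finite K := fin_of_quot (R.subgroupOf K)
  exact fin_of_quot K

/-- a finite group of exponent `2 p ^ k` is soluble -/
theorem solv_fin {p k : ℕ} (hp : p.Prime) (K : Type u) [Group K] [Finite K]
    (hK : ∀ x : K, x ^ (2 * p ^ k) = 1) : Group.IsSolvable K := by
  haveI : Small.{0} K := Countable.toSmall K
  let f : Shrink.{0} K ≃* K := Shrink.mulEquiv
  haveI : Finite (Shrink.{0} K) := Finite.of_equiv K f.symm.toEquiv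
  have h1 : ∀ x : Shrink.{0} K, x ^ (2 ^ 1 * p ^ k) = 1 := by
    intro x
    apply f.injective
    rw [map_pow, map_one, pow_one]
    exact hK _
  have := solv_of_exp 2 p 1 k Nat.prime_two hp h1
  exact Group.isSolvable_of_surjective (f := f.toMonoidHom) f.surjective

theorem fg_closure {G : Type u} [Group G] (S : Set G) (hS : S.Finite) :
    Group.FG (Subgroup.closure S) := by
  rw [Group.fg_iff_subgroup_fg]
  exact ⟨hS.toFinset, by simp⟩

/-- condition (b): all involutions which commute with `A` lie in `A` -/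
theorem prod_of_max {G : Type u} [Group G] {m : ℕ} (hm : Odd m) (hG : ∀ x : G, x ^ (2 * m) = 1)
    (hL : InL.{u} m) (A : Subgroup G) [Finite A]
    (hmax : ∀ x : G, (∀ a ∈ A, x * a = a * x) → x ^ 2 = 1 → x ∈ A)
    (hA2 : ∀ a ∈ A, a ^ 2 = 1) : ProdIn m (A : Set G) := by
  intro x y hx hy hxm hym
  have hc2 : Nat.Coprime m 2 := Nat.coprime_two_right.2 hm
  have hYA : ∀ z ∈ Subgroup.closure ({x, y} : Set G), ∀ a ∈ A, z * a = a * z := by
    intro z hz a ha
    have : Subgroup.closure ({x, y} : Set G) ≤ Subgroup.centralizer ({a} : Set G) := by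
      rw [Subgroup.closure_le]
      intro w hw
      simp only [Set.mem_insert_iff, Set.mem_singleton_iff] at hw
      rcases hw with rfl | rfl
      · exact mem_cent.2 (hx a ha)
      · exact mem_cent.2 (hy a ha)
    exact mem_cent.1 (this hz)
  let Y := Subgroup.closure ({x, y} : Set G)
  let N : Subgroup Y := A.subgroupOf Y
  have hYfg : Group.FG Y := fg_closure _ (Set.toFinite _)
  have hNc : ∀ n ∈ N, ∀ z : Y, n * z = z * n := by
    intro n hn z
    apply Subtype.ext
    have := hYA z z.2 n (Subgroup.mem_subgroupOf.1 hn)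
    simpa using this.symm
  have hN : N.Normal := ⟨fun n hn g => by
    rw [← hNc n hn g, mul_inv_cancel_right]; exact hn⟩
  have hpow : ∀ z : Y, z ^ m ∈ N := by
    intro z
    rw [Subgroup.mem_subgroupOf]
    refine hmax _ (fun a ha => hYA _ (z ^ m).2 a ha) ?_
    have := hG (z : G)
    rw [mul_comm, pow_mul] at this
    simpa using this
  have fq : Finite (Y ⧸ N) := by
    refine fin_of_fg hL _ (by infer_instance) fun q => ?_
    obtain ⟨z, rfl⟩ := QuotientGroup.mk_surjective q
    rw [← QuotientGroup.mk_pow, QuotientGroup.eq_one_iff]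
    exact hpow z
  have fN : Finite N := by
    refine Finite.of_injective (fun n : N => (⟨((n : Y) : G), Subgroup.mem_subgroupOf.1 n.2⟩ : A)) ?_
    intro a b hab
    apply Subtype.ext
    apply Subtype.ext
    have := congrArg (Subtype.val (p := fun x => x ∈ A)) hab
    exact this
  have fY : Finite Y := fin_of_quot N
  have hN2 : ∀ n ∈ N, n ^ 2 = 1 := by
    intro n hn
    exact Subtype.ext (by simpa using hA2 _ (Subgroup.mem_subgroupOf.1 hn))
  have hcop : Nat.Coprime (Nat.card N) N.index := by
    refine Nat.Coprime.symm (Nat.coprime_of_dvd ?_)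
    intro p hp hpi hpN
    haveI : Fact p.Prime := ⟨hp⟩
    obtain ⟨n, hn⟩ := exists_prime_orderOf_dvd_card' p hpN
    have hn2 : orderOf n ∣ 2 := orderOf_dvd_of_pow_eq_one (Subtype.ext (by simpa using hN2 n n.2))
    rw [hn] at hn2
    have hp2 : p = 2 := (Nat.prime_dvd_prime_iff_eq hp Nat.prime_two).1 hn2
    subst hp2
    obtain ⟨q, hq⟩ := exists_prime_orderOf_dvd_card' (G := Y ⧸ N) 2 (by
      rw [Subgroup.index] at hpi; exact hpi)
    have hqm : q ^ m = 1 := by
      obtain ⟨z, rfl⟩ := QuotientGroup.mk_surjective q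
      rw [← QuotientGroup.mk_pow, QuotientGroup.eq_one_iff]
      exact hpow z
    have := orderOf_dvd_of_pow_eq_one hqm
    rw [hq] at this
    exact absurd this (by
      rw [← even_iff_two_dvd, Nat.not_even_iff_odd]; exact hm)
  obtain ⟨K, hK⟩ := Subgroup.exists_right_complement'_of_coprime hcop
  have hKN : ∀ k ∈ K, k ^ m = 1 := by
    intro k hk
    have h1 : k ^ m ∈ N ⊓ K := ⟨hpow k, pow_mem hk m⟩
    rw [hK.disjoint.eq_bot] at h1
    exact Subgroup.mem_bot.1 h1
  have hodd : ∀ w : Y, w ^ m = 1 → w ∈ K := by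
    intro w hw
    obtain ⟨⟨⟨n, hn⟩, ⟨k, hk⟩⟩, hnk⟩ := hK.2 w
    change n * k = w at hnk
    have hcomm : Commute n k := hNc n hn k
    have h1 : n ^ m = 1 := by
      have : w ^ m = n ^ m * k ^ m := by rw [← hnk, hcomm.mul_pow]
      rw [hKN k hk, mul_one] at this
      rw [← this, hw]
    have h2 : n = 1 := eq_one_of_coprime hc2 h1 (hN2 n hn)
    rw [← hnk, h2, one_mul]
    exact hk
  have mx : x ∈ Y := Subgroup.subset_closure (by simp)
  have my : y ∈ Y := Subgroup.subset_closure (by simp)
  have h1 := hodd ⟨x, mx⟩ (Subtype.ext (by simpa using hxm))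
  have h2 := hodd ⟨y, my⟩ (Subtype.ext (by simpa using hym))
  have h3 := hKN _ (mul_mem h1 h2)
  have := congrArg Subtype.val h3
  simpa using this

end Pool.Agent.U621.ZS
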