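import Mathlib
import Pool.Agent.U621.ZS.Cent

set_option autoImplicit false

/-!
# Local finiteness of groups of exponent `2 m` from one centraliser
-/

namespace Pool.Agent.U621.ZS

open Pool.Agent.W629 Pool.Agent.H32BU

universe u v

/-- the subgroup generated by the elements with trivial square -/
def Tw (G : Type u) [Group G] : Subgroup G := Subgroup.closure {x : G | x ^ 2 = 1}

theorem tw_eq (G : Type u) [Group G] : Tw G = Subgroup.normalClosure {x : G | x ^ 2 = 1} := by
  unfold Tw Subgroup.normalClosure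
  congr 1
  ext x
  rw [Group.mem_conjugatesOfSet_iff]
  constructor
  · intro hx
    exact ⟨x, hx, IsConj.refl x⟩
  · rintro ⟨a, ha, hc⟩
    obtain ⟨g, rfl⟩ := isConj_iff.1 hc
    exact conj_pow_one ha

instance (G : Type u) [Group G] : (Tw G).Normal := by
  rw [tw_eq]
  infer_instance

theorem Three.sub {G : Type u} [Group G] (h : Three G) (H : Subgroup G) : Three H := by
  intro t g k ht
  have h1 := h (t : G) (g : G) (k : G) (by
    have := congrArg Subtype.val ht
    simpa using this)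
  have e : H.subtype '' {t, g⁻¹ * t * g, k⁻¹ * t * k} =
      {(t : G), (g : G)⁻¹ * t * g, (k : G)⁻¹ * t * k} := by
    rw [Set.image_insert_eq, Set.image_pair]
    rfl
  rw [← e, ← MonoidHom.map_closure] at h1
  exact Group.isSolvable_of_surjective
    (f := ((Subgroup.closure {t, g⁻¹ * t * g, k⁻¹ * t * k}).equivMapOfInjective H.subtype
      H.subtype_injective).symm.toMonoidHom)
    ((Subgroup.closure {t, g⁻¹ * t * g, k⁻¹ * t * k}).equivMapOfInjective H.subtype
      H.subtype_injective).symm.surjective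

theorem solv_pair {G : Type u} [Group G] (H : Subgroup G) (x y : H)
    (h : Group.IsSolvable (Subgroup.closure {(x : G), (y : G)})) :
    Group.IsSolvable (Subgroup.closure {x, y}) := by
  have e : H.subtype '' {x, y} = {(x : G), (y : G)} := by
    rw [Set.image_pair]
    rfl
  rw [← e, ← MonoidHom.map_closure] at h
  exact Group.isSolvable_of_surjective
    (f := ((Subgroup.closure {x, y}).equivMapOfInjective H.subtype
      H.subtype_injective).symm.toMonoidHom)
    ((Subgroup.closure {x, y}).equivMapOfInjective H.subtype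
      H.subtype_injective).symm.surjective

theorem exp_tw {G : Type u} [Group G] {n : ℕ} (hG : ∀ x : G, x ^ n = 1) (H : Subgroup G) :
    ∀ x : H, x ^ n = 1 := fun x => Subtype.ext (by simpa using hG x)

/-- elements of odd order of a group generated by involutions -/
theorem prod_gen {G : Type u} [Group G] {m : ℕ} (hm : Odd m) (hG : ∀ x : G, x ^ (2 * m) = 1)
    (h3 : Three G) (hgen : Subgroup.closure {x : G | x ^ 2 = 1} = ⊤) (A : Subgroup G) [Finite A]
    (hA2 : ∀ a ∈ A, a ^ 2 = 1) (hC : ProdIn m (A : Set G)) :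
    ∀ x y : G, x ^ m = 1 → y ^ m = 1 → (x * y) ^ m = 1 :=
  prod_of_finite hm G hG (isol hm hG h3 hgen) A hA2 hC

/-- the condition on the centraliser of `A` -/
def Good {G : Type u} [Group G] (m : ℕ) (A : Subgroup G) : Prop :=
  (∀ x y : G, (∀ a ∈ A, x * a = a * x) → (∀ a ∈ A, y * a = a * y) → x ^ m = 1 → y ^ m = 1 →
    Group.IsSolvable (Subgroup.closure {x, y})) ∨
  ∀ x : G, (∀ a ∈ A, x * a = a * x) → x ^ 2 = 1 → x ∈ A

/-- products of elements of odd order of the subgroup generated by the involutions -/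
theorem prod_tw {G : Type u} [Group G] {m : ℕ} (hm : Odd m) (hL : InL.{u} m)
    (hG : ∀ x : G, x ^ (2 * m) = 1) (h3 : Three G) (A : Subgroup G) [Finite A]
    (hA2 : ∀ a ∈ A, a ^ 2 = 1) (hC : Good m A) :
    ∀ x ∈ Tw G, ∀ y ∈ Tw G, x ^ m = 1 → y ^ m = 1 → (x * y) ^ m = 1 := by
  have hAT : A ≤ Tw G := fun a ha => Subgroup.subset_closure (hA2 a ha)
  have hE := exp_tw hG (Tw G)
  have hgen : Subgroup.closure {x : Tw G | x ^ 2 = 1} = ⊤ := closure_sub _ fun x hx => hx
  have hI : Isol (Tw G) := isol hm hE (h3.sub _) hgen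
  let B : Subgroup (Tw G) := A.subgroupOf (Tw G)
  have fB : Finite B := by
    refine Finite.of_injective
      (fun n : B => (⟨((n : Tw G) : G), Subgroup.mem_subgroupOf.1 n.2⟩ : A)) ?_
    intro a b hab
    apply Subtype.ext
    apply Subtype.ext
    exact congrArg (Subtype.val (p := fun x => x ∈ A)) hab
  have hB2 : ∀ a ∈ B, a ^ 2 = 1 := fun a ha =>
    Subtype.ext (by simpa using hA2 _ (Subgroup.mem_subgroupOf.1 ha))
  have hcomm : ∀ x : Tw G, (∀ a ∈ (B : Set (Tw G)), x * a = a * x) →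
      ∀ a ∈ A, (x : G) * a = a * x := by
    intro x hx a ha
    have := congrArg Subtype.val (hx ⟨a, hAT ha⟩ (Subgroup.mem_subgroupOf.2 ha))
    simpa using this
  have hCB : ProdIn m (B : Set (Tw G)) := by
    rcases hC with hC | hC
    · intro x y hx hy hxm hym
      refine prod_of_solv hm hE hI hxm hym (solv_pair _ x y (hC x y (hcomm x hx) (hcomm y hy) ?_ ?_))
      · have := congrArg Subtype.val hxm
        simpa using this
      · have := congrArg Subtype.val hym
        simpa using this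
    · refine prod_of_max hm hE hL B (fun x hx hx2 => ?_) hB2
      rw [Subgroup.mem_subgroupOf]
      refine hC x (hcomm x hx) ?_
      have := congrArg Subtype.val hx2
      simpa using this
  intro x hx y hy hxm hym
  have := prod_of_finite hm (Tw G) hE hI B hB2 hCB ⟨x, hx⟩ ⟨y, hy⟩
    (Subtype.ext (by simpa using hxm)) (Subtype.ext (by simpa using hym))
  have := congrArg Subtype.val this
  simpa using this

/-- the series -/
theorem series_tw {G : Type u} [Group G] {m : ℕ} (hm : Odd m) (hL : InL.{u} m)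
    (hG : ∀ x : G, x ^ (2 * m) = 1) (h3 : Three G) (A : Subgroup G) [Finite A]
    (hA2 : ∀ a ∈ A, a ^ 2 = 1) (hC : Good m A) :
    ∃ R : Subgroup G, R.Normal ∧ R ≤ Tw G ∧ (∀ x ∈ R, x ^ m = 1) ∧ (∀ x ∈ Tw G, x ^ 2 ∈ R) ∧
      ∀ x : G, x ^ m ∈ Tw G := by
  let R : Subgroup G :=
    { carrier := {x | x ∈ Tw G ∧ x ^ m = 1}
      one_mem' := ⟨one_mem _, one_pow _⟩
      mul_mem' := fun {x y} hx hy =>
        ⟨mul_mem hx.1 hy.1, prod_tw hm hL hG h3 A hA2 hC x hx.1 y hy.1 hx.2 hy.2⟩
      inv_mem' := fun {x} hx => ⟨inv_mem hx.1, by rw [inv_pow, hx.2, inv_one]⟩ }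
  refine ⟨R, ⟨fun x hx g => ⟨Subgroup.Normal.conj_mem inferInstance x hx.1 g, ?_⟩⟩,
    fun x hx => hx.1, fun x hx => hx.2, fun x hx => ⟨pow_mem hx 2, ?_⟩,
    fun x => Subgroup.subset_closure ?_⟩
  · rw [conj_pow, hx.2, mul_one, mul_inv_cancel]
  · rw [← pow_mul, hG]
  · change (x ^ m) ^ 2 = 1
    rw [← pow_mul, mul_comm, hG]

/-- local finiteness -/
theorem lf_group {G : Type u} [Group G] {m : ℕ} (hm : Odd m) (hL : InL.{u} m)
    (hG : ∀ x : G, x ^ (2 * m) = 1) (h3 : Three G) (A : Subgroup G) [Finite A]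
    (hA2 : ∀ a ∈ A, a ^ 2 = 1) (hC : Good m A) (S : Set G) (hS : S.Finite) :
    Finite (Subgroup.closure S) := by
  obtain ⟨R, hR, hRT, r1, r2, r3⟩ := series_tw hm hL hG h3 A hA2 hC
  refine fin_series hL (Subgroup.closure S) (fg_closure S hS) (R.subgroupOf _)
    ((Tw G).subgroupOf _) ?_ ?_ ?_
  · intro x hx
    exact Subtype.ext (by simpa using r1 _ (Subgroup.mem_subgroupOf.1 hx))
  · intro x hx
    rw [Subgroup.mem_subgroupOf]
    simpa using r2 _ (Subgroup.mem_subgroupOf.1 hx)
  · intro x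
    rw [Subgroup.mem_subgroupOf]
    simpa using r3 x

/-- a subgroup is locally finite -/
def LFin {G : Type u} [Group G] (H : Subgroup G) : Prop :=
  ∀ S : Set G, S.Finite → S ⊆ H → Finite (Subgroup.closure S)

theorem good_of_lf {G : Type u} [Group G] {p k : ℕ} (hp : p.Prime)
    (hG : ∀ x : G, x ^ (2 * p ^ k) = 1) (A : Subgroup G)
    (h : LFin (Subgroup.centralizer (A : Set G))) : Good (p ^ k) A := by
  left
  intro x y hx hy _ _
  have hf : Finite (Subgroup.closure ({x, y} : Set G)) := by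
    refine h _ (Set.toFinite _) ?_
    intro z hz
    simp only [Set.mem_insert_iff, Set.mem_singleton_iff] at hz
    rcases hz with rfl | rfl
    · exact Subgroup.mem_centralizer_iff.2 fun a ha => (hx a ha).symm
    · exact Subgroup.mem_centralizer_iff.2 fun a ha => (hy a ha).symm
  exact solv_fin hp _ (exp_tw hG _)

theorem three_of_fin {G : Type u} [Group G] {p k : ℕ} (hp : p.Prime)
    (hG : ∀ x : G, x ^ (2 * p ^ k) = 1)
    (h : ∀ t g h : G, t ^ 2 = 1 → Finite (Subgroup.closure {t, g⁻¹ * t * g, h⁻¹ * t * h})) :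
    Three G := by
  intro t g k ht
  have := h t g k ht
  exact solv_fin hp _ (exp_tw hG _)

/-- prime powers -/
theorem lf_pp {G : Type u} [Group G] {p k : ℕ} (hp : p.Prime) (hp2 : p ≠ 2)
    (hL : InL.{u} (p ^ k)) (hG : ∀ x : G, x ^ (2 * p ^ k) = 1)
    (h3 : ∀ t g h : G, t ^ 2 = 1 → Finite (Subgroup.closure {t, g⁻¹ * t * g, h⁻¹ * t * h}))
    (A : Subgroup G) [Finite A] (hA2 : ∀ a ∈ A, a ^ 2 = 1)
    (hC : LFin (Subgroup.centralizer (A : Set G))) (S : Set G) (hS : S.Finite) :
    Finite (Subgroup.closure S) :=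
  lf_group ((hp.odd_of_ne_two hp2).pow) hL hG (three_of_fin hp hG h3) A hA2
    (good_of_lf hp hG A hC) S hS

end Pool.Agent.U621.ZS
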