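import Mathlib
import Pool.Agent.U621.ZS.Main

set_option autoImplicit false

/-!
# Simple groups
-/

namespace Pool.Agent.U621.ZS

open Pool.Agent.W629 Pool.Agent.H32BU

universe u v

/-- a nontrivial finitely generated group has a simple quotient -/
theorem exists_max {V : Type u} [Group V] (hfg : Group.FG V) (hne : Nontrivial V) :
    ∃ M : Subgroup V, M.Normal ∧ M ≠ ⊤ ∧ ∀ N : Subgroup V, N.Normal → M ≤ N → N ≠ ⊤ → N = M := by
  classical
  obtain ⟨S, hS⟩ := Group.fg_def.1 hfg
  have hz := zorn_le_nonempty₀ {M : Subgroup V | M.Normal ∧ M ≠ ⊤} (by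
    intro c hc hch M₀ hM₀
    refine ⟨sSup c, ⟨?_, ?_⟩, fun M hM => le_sSup hM⟩
    · refine ⟨fun x hx g => ?_⟩
      rw [Subgroup.mem_sSup_of_directedOn ⟨M₀, hM₀⟩ hch.directedOn] at hx ⊢
      obtain ⟨M, hM, hx⟩ := hx
      exact ⟨M, hM, (hc hM).1.conj_mem x hx g⟩
    · intro htop
      have key : ∀ F : Finset V, ∃ M ∈ c, (F : Set V) ⊆ M := by
        intro F
        induction F using Finset.induction_on with
        | empty => exact ⟨M₀, hM₀, by simp⟩
        | insert a F _ ih =>
          obtain ⟨M, hM, hF⟩ := ih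
          have ha : a ∈ sSup c := by rw [htop]; trivial
          rw [Subgroup.mem_sSup_of_directedOn ⟨M₀, hM₀⟩ hch.directedOn] at ha
          obtain ⟨M', hM', ha⟩ := ha
          rcases hch.total hM hM' with h | h
          · refine ⟨M', hM', ?_⟩
            rw [Finset.coe_insert]
            exact Set.insert_subset ha (hF.trans h)
          · refine ⟨M, hM, ?_⟩
            rw [Finset.coe_insert]
            exact Set.insert_subset (h ha) hF
      obtain ⟨M, hM, hSM⟩ := key S
      refine (hc hM).2 ?_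
      rw [eq_top_iff, ← hS]
      exact (Subgroup.closure_le M).2 hSM) ⊥ ⟨inferInstance, bot_ne_top⟩
  obtain ⟨M, -, hM⟩ := hz
  refine ⟨M, hM.prop.1, hM.prop.2, fun N hN hMN hNt => ?_⟩
  exact le_antisymm (hM.le_of_ge ⟨hN, hNt⟩ hMN) hMN

/-- the subgroup generated by the elements of the commutator subgroup with trivial square -/
def Vr (T : Type u) [Group T] : Subgroup T :=
  Subgroup.closure {x : T | x ∈ commutator T ∧ x ^ 2 = 1}

theorem vr_le {T : Type u} [Group T] {p k : ℕ} (hp : p.Prime) (hp2 : p ≠ 2)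
    (hG : ∀ x : T, x ^ (2 * p ^ k) = 1) (hgen : Subgroup.closure {x : T | x ^ 2 = 1} = ⊤)
    (N : Subgroup T) [N.Normal] [Finite (T ⧸ N)] : Vr T ≤ N := by
  have hm : Odd (p ^ k) := (hp.odd_of_ne_two hp2).pow
  have hc : Nat.Coprime (p ^ k) 2 := Nat.coprime_two_right.2 hm
  have hQ : ∀ x : T ⧸ N, x ^ (2 * p ^ k) = 1 := exp_quot hG N
  have hQ' : ∀ x : T ⧸ N, x ^ (p ^ k * 2) = 1 := fun x => by rw [mul_comm]; exact hQ x
  have hs : Group.IsSolvable (T ⧸ N) := solv_fin hp _ hQ
  have hg : Subgroup.closure {x : T ⧸ N | x ^ 2 = 1} = ⊤ := by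
    rw [eq_top_iff]
    rintro q -
    obtain ⟨x, rfl⟩ := QuotientGroup.mk_surjective q
    have hx : x ∈ Subgroup.closure {x : T | x ^ 2 = 1} := by rw [hgen]; trivial
    have h1 : (QuotientGroup.mk' N) x ∈
        (Subgroup.closure {x : T | x ^ 2 = 1}).map (QuotientGroup.mk' N) :=
      Subgroup.mem_map_of_mem _ hx
    rw [MonoidHom.map_closure] at h1
    refine Subgroup.closure_mono ?_ h1
    rintro _ ⟨y, hy, rfl⟩
    change ((QuotientGroup.mk' N) y) ^ 2 = 1
    rw [← map_pow, show y ^ 2 = 1 from hy, map_one]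
  have hcomm : commutator (T ⧸ N) ≤ Rad (p ^ k) (T ⧸ N) := by
    rw [commutator_def, Subgroup.commutator_le]
    intro a _ b _
    rw [← QuotientGroup.eq_one_iff, commutatorElement_def]
    simp only [QuotientGroup.mk_mul, QuotientGroup.mk_inv]
    rw [quot_comm hc hQ' hs hg a b]
    group
  unfold Vr
  rw [Subgroup.closure_le]
  rintro x ⟨hx, hx2⟩
  have h1 : (QuotientGroup.mk' N) x ∈ commutator (T ⧸ N) := by
    have h2 : (commutator T).map (QuotientGroup.mk' N) ≤ commutator (T ⧸ N) := by
      rw [commutator_def, Subgroup.map_commutator, commutator_def]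
      exact Subgroup.commutator_mono le_top le_top
    exact h2 (Subgroup.mem_map_of_mem _ hx)
  have h3 := (hcomm h1).1
  have h4 : ((QuotientGroup.mk' N) x) ^ 2 = 1 := by rw [← map_pow, hx2, map_one]
  have h5 := eq_one_of_coprime hc h3 h4
  exact (QuotientGroup.eq_one_iff x).1 h5

theorem vr_index {T : Type u} [Group T] {m : ℕ} (hL : InL.{u} m)
    (hG : ∀ x : T, x ^ (2 * m) = 1) (hfg : Group.FG T)
    (hgen : Subgroup.closure {x : T | x ^ 2 = 1} = ⊤) : (Vr T).index ≠ 0 := by
  have hle : Vr T ≤ commutator T := by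
    unfold Vr
    rw [Subgroup.closure_le]
    exact fun x hx => hx.1
  have h2 : ∀ x : T, x ^ 2 ∈ commutator T := by
    intro x
    have hx : x ∈ Subgroup.closure {x : T | x ^ 2 = 1} := by rw [hgen]; trivial
    rw [← QuotientGroup.eq_one_iff (N := commutator T), QuotientGroup.mk_pow]
    induction hx using Subgroup.closure_induction with
    | mem x hx => rw [← QuotientGroup.mk_pow, show x ^ 2 = 1 from hx]; rfl
    | one => simp
    | mul a b _ _ ha hb =>
      have hc : Commute (a : T ⧸ commutator T) b := by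
        exact mul_comm (Abelianization.of a) (Abelianization.of b)
      rw [QuotientGroup.mk_mul, hc.mul_pow, ha, hb, one_mul]
    | inv a _ ha => rw [QuotientGroup.mk_inv, inv_pow, ha, inv_one]
  have f1 : Finite (T ⧸ commutator T) := by
    refine fin_of_fg inL_two _ (by have := hfg; infer_instance) fun q => ?_
    obtain ⟨x, rfl⟩ := QuotientGroup.mk_surjective q
    rw [← QuotientGroup.mk_pow, QuotientGroup.eq_one_iff]
    exact h2 x
  have g1 : Group.FG (commutator T) := fg_of_fin_quot hfg _
  have hn : ((Vr T).subgroupOf (commutator T)).Normal := by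
    have hV : (Vr T).Normal := by
      refine ⟨fun x hx g => ?_⟩
      unfold Vr at hx ⊢
      induction hx using Subgroup.closure_induction with
      | mem x hx =>
        exact Subgroup.subset_closure ⟨Subgroup.Normal.conj_mem inferInstance x hx.1 g,
          conj_pow_one hx.2⟩
      | one => simp
      | mul a b _ _ ha hb =>
        have e : g * (a * b) * g⁻¹ = (g * a * g⁻¹) * (g * b * g⁻¹) := by group
        rw [e]
        exact mul_mem ha hb
      | inv a _ ha =>
        have e : g * a⁻¹ * g⁻¹ = (g * a * g⁻¹)⁻¹ := by group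
        rw [e]
        exact inv_mem ha
    infer_instance
  have f2 : Finite (commutator T ⧸ (Vr T).subgroupOf (commutator T)) := by
    refine fin_of_fg hL _ (by infer_instance) fun q => ?_
    obtain ⟨x, rfl⟩ := QuotientGroup.mk_surjective q
    rw [← QuotientGroup.mk_pow, QuotientGroup.eq_one_iff, Subgroup.mem_subgroupOf]
    refine Subgroup.subset_closure ⟨?_, ?_⟩
    · exact (x ^ m).2
    · have := hG (x : T)
      rw [mul_comm, pow_mul] at this
      simpa using this
  rw [← Subgroup.relIndex_mul_index hle]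
  refine mul_ne_zero ?_ ?_
  · exact Subgroup.index_ne_zero_of_finite
  · exact Subgroup.index_ne_zero_of_finite

/-- an infinite finitely generated group of exponent `2 p ^ k` generated by involutions yields an
infinite finitely generated simple group of exponent `2 p ^ k` -/
theorem exists_simple {T : Type u} [Group T] {p k : ℕ} (hp : p.Prime) (hp2 : p ≠ 2)
    (hL : InL.{u} (p ^ k)) (hG : ∀ x : T, x ^ (2 * p ^ k) = 1) (hfg : Group.FG T)
    (hgen : Subgroup.closure {x : T | x ^ 2 = 1} = ⊤) (hinf : Infinite T) :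
    ∃ (S : Type u) (_ : Group S), IsSimpleGroup S ∧ Group.FG S ∧ Infinite S ∧
      (∀ x : S, x ^ (2 * p ^ k) = 1) ∧ ∃ t : S, t ≠ 1 ∧ t ^ 2 = 1 := by
  have hidx := vr_index hL hG hfg hgen
  have fidx : (Vr T).FiniteIndex := ⟨hidx⟩
  have fq : Finite (T ⧸ Vr T) := Subgroup.finite_quotient_of_finiteIndex
  have vfg : Group.FG (Vr T) := fg_of_fin_quot hfg _
  have vinf : Infinite (Vr T) := by
    by_contra hcon
    rw [not_infinite_iff_finite] at hcon
    exact hinf.not_finite (fin_of_quot (Vr T))
  obtain ⟨M, hMn, hMt, hMm⟩ := exists_max vfg (inferInstance : Nontrivial (Vr T))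
  have hV : ∀ N : Subgroup T, N.Normal → N.FiniteIndex → Vr T ≤ N := by
    intro N hN hNf
    have : Finite (T ⧸ N) := Subgroup.finite_quotient_of_finiteIndex
    exact vr_le hp hp2 hG hgen N
  refine ⟨Vr T ⧸ M, inferInstance, ?_, inferInstance, ?_, exp_quot (exp_tw hG _) M, ?_⟩
  · have hnt : Nontrivial (Vr T ⧸ M) := by
      by_contra hcon
      rw [not_nontrivial_iff_subsingleton] at hcon
      refine hMt (eq_top_iff.2 fun x _ => ?_)
      exact (QuotientGroup.eq_one_iff x).1 (Subsingleton.elim _ _)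
    refine ⟨fun H hH => ?_⟩
    by_cases hc : H.comap (QuotientGroup.mk' M) = ⊤
    · right
      rw [eq_top_iff]
      rintro q -
      obtain ⟨x, rfl⟩ := QuotientGroup.mk_surjective q
      have : x ∈ H.comap (QuotientGroup.mk' M) := by rw [hc]; trivial
      exact this
    · left
      have h1 := hMm (H.comap (QuotientGroup.mk' M)) (hH.comap _) (fun x hx => by
        rw [Subgroup.mem_comap, QuotientGroup.mk'_apply, (QuotientGroup.eq_one_iff x).2 hx]
        exact one_mem _) hc
      rw [eq_bot_iff]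
      intro q hq
      obtain ⟨x, rfl⟩ := QuotientGroup.mk_surjective q
      have : x ∈ H.comap (QuotientGroup.mk' M) := hq
      rw [h1] at this
      rw [Subgroup.mem_bot]
      exact (QuotientGroup.eq_one_iff x).2 this
  · by_contra hcon
    rw [not_infinite_iff_finite] at hcon
    have i1 : M.index ≠ 0 := Subgroup.index_ne_zero_of_finite
    have i2 : (M.map (Vr T).subtype).index ≠ 0 := by
      rw [Subgroup.index_map_subtype]
      exact mul_ne_zero i1 hidx
    have i3 : (M.map (Vr T).subtype).FiniteIndex := ⟨i2⟩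
    have h1 := hV (M.map (Vr T).subtype).normalCore inferInstance inferInstance
    refine hMt ?_
    rw [eq_top_iff]
    rintro ⟨x, hx⟩ -
    obtain ⟨y, hy, hyx⟩ := Subgroup.normalCore_le _ (h1 hx)
    have : y = ⟨x, hx⟩ := Subtype.ext hyx
    rwa [← this]
  · by_contra hcon
    push Not at hcon
    refine hMt ?_
    have hg : Subgroup.closure {x : Vr T | x ^ 2 = 1} = ⊤ := closure_sub _ fun x hx => hx.2
    rw [eq_top_iff, ← hg, Subgroup.closure_le]
    intro x hx
    by_contra hxM
    refine hcon (x : Vr T ⧸ M) (fun h => hxM ((QuotientGroup.eq_one_iff x).1 h)) ?_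
    rw [← QuotientGroup.mk_pow, show x ^ 2 = 1 from hx]
    rfl

/-- a group of exponent `2 p ^ k` which is not locally finite yields an infinite finitely generated
simple group -/
theorem crit {p k : ℕ} (hp : p.Prime) (hp2 : p ≠ 2) (hL : InL.{u} (p ^ k))
    (hcon : ¬ InL.{u} (2 * p ^ k)) :
    ∃ (S : Type u) (_ : Group S), IsSimpleGroup S ∧ Group.FG S ∧ Infinite S ∧
      (∀ x : S, x ^ (2 * p ^ k) = 1) ∧ ∃ t : S, t ≠ 1 ∧ t ^ 2 = 1 := by
  unfold InL at hcon
  push Not at hcon
  obtain ⟨G, _, hG, S, hSf, hcon⟩ := hcon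
  have hfg : Group.FG (Subgroup.closure S) := fg_closure S hSf
  have hH : ∀ x : Subgroup.closure S, x ^ (2 * p ^ k) = 1 := exp_tw hG _
  have fq : Finite (Subgroup.closure S ⧸ Tw (Subgroup.closure S)) := by
    refine fin_of_fg hL _ (by infer_instance) fun q => ?_
    obtain ⟨x, rfl⟩ := QuotientGroup.mk_surjective q
    rw [← QuotientGroup.mk_pow, QuotientGroup.eq_one_iff]
    refine Subgroup.subset_closure ?_
    change (x ^ p ^ k) ^ 2 = 1
    rw [← pow_mul, mul_comm, hH]
  have tfg : Group.FG (Tw (Subgroup.closure S)) := fg_of_fin_quot hfg _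
  have tinf : Infinite (Tw (Subgroup.closure S)) := by
    by_contra hc
    rw [not_infinite_iff_finite] at hc
    have := fin_of_quot (Tw (Subgroup.closure S))
    exact not_finite_iff_infinite.2 hcon this
  exact exists_simple hp hp2 hL (exp_tw hH _) tfg (closure_sub _ fun x hx => hx) tinf

end Pool.Agent.U621.ZS
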