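import Mathlib
import Pool.Agent.U621.ZS.Simple

set_option autoImplicit false

/-!
# Extension of homomorphisms from centralisers of finite `2`-subgroups, simple groups
-/

namespace Pool.Agent.U621.ZS

open Pool.Agent.W629 Pool.Agent.H32BU

universe u v

theorem extend_list {Q : Type v} [Group Q] (hQ : ∀ q : Q, OddEl q → q = 1) :
    ∀ (n : ℕ) (G : Type u) [Group G], Isol G → ∀ l : List G, l.length = n → (∀ a ∈ l, a ^ 2 = 1) →
    (∀ a ∈ l, ∀ b ∈ l, a * b = b * a) → ∀ χ : Subgroup.centralizer ({a | a ∈ l} : Set G) →* Q,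
    (∃ ψ : G →* Q, ∀ c : Subgroup.centralizer ({a | a ∈ l} : Set G), ψ c = χ c) ∧
    ∀ ψ ψ' : G →* Q, (∀ c : Subgroup.centralizer ({a | a ∈ l} : Set G), ψ c = ψ' c) → ψ = ψ' := by
  intro n
  induction n with
  | zero =>
    intro G _ hI l hl _ _ χ
    have : l = [] := List.length_eq_zero_iff.1 hl
    subst this
    have hall : ∀ x : G, x ∈ Subgroup.centralizer ({a | a ∈ ([] : List G)} : Set G) := fun x =>
      Subgroup.mem_centralizer_iff.2 fun a ha => by simp at ha
    let j : G →* Subgroup.centralizer ({a | a ∈ ([] : List G)} : Set G) :=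
      MonoidHom.mk' (fun x => ⟨x, hall x⟩) (fun _ _ => rfl)
    refine ⟨⟨χ.comp j, fun c => rfl⟩, fun ψ ψ' h => ?_⟩
    ext x
    exact h ⟨x, hall x⟩
  | succ n ih =>
    intro G _ hI l hl h2 hc χ
    match l, hl with
    | t :: l', hl =>
      have hl' : l'.length = n := by simpa using hl
      have ht : Iso t := hI t (h2 t (by simp))
      have hmem : ∀ a ∈ l', a ∈ Subgroup.centralizer ({t} : Set G) := fun a ha =>
        mem_cent.2 (hc a (by simp [ha]) t (by simp))
      let L : List (Subgroup.centralizer ({t} : Set G)) := l'.pmap (fun a ha => ⟨a, ha⟩) hmem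
      have hL : ∀ b ∈ L, (b : G) ∈ l' := by
        intro b hb
        obtain ⟨a, ha, rfl⟩ := List.mem_pmap.1 hb
        exact ha
      have hL2 : ∀ (a : G) (ha : a ∈ l'),
          (⟨a, hmem a ha⟩ : Subgroup.centralizer ({t} : Set G)) ∈ L := fun a ha =>
        List.mem_pmap.2 ⟨a, ha, rfl⟩
      have m1 : ∀ x : Subgroup.centralizer ({a | a ∈ L} :
          Set (Subgroup.centralizer ({t} : Set G))),
          ((x : Subgroup.centralizer ({t} : Set G)) : G) ∈
            Subgroup.centralizer ({a | a ∈ t :: l'} : Set G) := by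
        intro x
        refine Subgroup.mem_centralizer_iff.2 fun a ha => ?_
        rcases List.mem_cons.1 ha with rfl | ha
        · exact (mem_cent.1 (x : Subgroup.centralizer ({a} : Set G)).2).symm
        · have := Subgroup.mem_centralizer_iff.1 x.2 _ (hL2 a ha)
          have := congrArg Subtype.val this
          simpa using this
      have m2 : ∀ x : Subgroup.centralizer ({a | a ∈ t :: l'} : Set G),
          (x : G) ∈ Subgroup.centralizer ({t} : Set G) := fun x =>
        mem_cent.2 (Subgroup.mem_centralizer_iff.1 x.2 t (by simp)).symm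
      have m3 : ∀ x : Subgroup.centralizer ({a | a ∈ t :: l'} : Set G),
          (⟨x, m2 x⟩ : Subgroup.centralizer ({t} : Set G)) ∈ Subgroup.centralizer ({a | a ∈ L} :
          Set (Subgroup.centralizer ({t} : Set G))) := by
        intro x
        refine Subgroup.mem_centralizer_iff.2 fun b hb => ?_
        apply Subtype.ext
        exact Subgroup.mem_centralizer_iff.1 x.2 (b : G) (by simp [hL b hb])
      let j : Subgroup.centralizer ({a | a ∈ L} : Set (Subgroup.centralizer ({t} : Set G))) →*
          Subgroup.centralizer ({a | a ∈ t :: l'} : Set G) :=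
        MonoidHom.mk' (fun x => ⟨_, m1 x⟩) (fun _ _ => rfl)
      have key := ih (Subgroup.centralizer ({t} : Set G)) (hI.sub _) L
        (by rw [List.length_pmap, hl'])
        (fun b hb => Subtype.ext (by simpa using h2 b (by simp [hL b hb])))
        (fun a ha b hb => Subtype.ext (by
          simpa using hc a (by simp [hL a ha]) b (by simp [hL b hb]))) (χ.comp j)
      constructor
      · obtain ⟨ψ', hψ'⟩ := key.1
        obtain ⟨ψ, hψ⟩ := ht.extend hQ ψ'
        refine ⟨ψ, fun c => ?_⟩
        have h1 := hψ ⟨c, m2 c⟩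
        have h3 := hψ' ⟨⟨c, m2 c⟩, m3 c⟩
        exact h1.trans h3
      · intro ψ ψ' h
        have h1 := key.2 (ψ.comp (Subgroup.centralizer ({t} : Set G)).subtype)
          (ψ'.comp (Subgroup.centralizer ({t} : Set G)).subtype) (fun c => h ⟨_, m1 c⟩)
        refine ht.unique hQ ψ ψ' fun c hct => ?_
        exact DFunLike.congr_fun h1 ⟨c, mem_cent.2 hct⟩

/-- homomorphisms of the centraliser of a finite subgroup of exponent `2` to groups without
elements of odd order extend uniquely -/
theorem extend_finite {Q : Type v} [Group Q] (hQ : ∀ q : Q, OddEl q → q = 1) (G : Type u) [Group G]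
    (hI : Isol G) (A : Subgroup G) [hA : Finite A] (hA2 : ∀ a ∈ A, a ^ 2 = 1)
    (χ : Subgroup.centralizer (A : Set G) →* Q) :
    ∃! ψ : G →* Q, ∀ c : Subgroup.centralizer (A : Set G), ψ c = χ c := by
  classical
  have hfin : (A : Set G).Finite := hA
  have hmem : ({a | a ∈ hfin.toFinset.toList} : Set G) = A := by ext a; simp
  have key := extend_list hQ _ G hI hfin.toFinset.toList rfl
    (fun a ha => hA2 a (by rw [← SetLike.mem_coe, ← hmem]; exact ha)) (by
      intro a ha b hb
      have ha : a ∈ A := by rw [← SetLike.mem_coe, ← hmem]; exact ha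
      have hb : b ∈ A := by rw [← SetLike.mem_coe, ← hmem]; exact hb
      have h1 : a⁻¹ = a := by rw [inv_eq_iff_mul_eq_one, ← pow_two, hA2 a ha]
      have h2 : b⁻¹ = b := by rw [inv_eq_iff_mul_eq_one, ← pow_two, hA2 b hb]
      have h3 : (a * b)⁻¹ = a * b := by
        rw [inv_eq_iff_mul_eq_one, ← pow_two, hA2 _ (mul_mem ha hb)]
      rw [mul_inv_rev, h1, h2] at h3
      exact h3.symm)
  rw [hmem] at key
  obtain ⟨⟨ψ, hψ⟩, hu⟩ := key χ
  exact ⟨ψ, hψ, fun ψ' hψ' => hu ψ' ψ fun c => (hψ' c).trans (hψ c).symm⟩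

/-- a simple group with an involution is generated by involutions -/
theorem simple_gen {S : Type u} [Group S] [IsSimpleGroup S] {t : S} (ht : t ≠ 1) (ht2 : t ^ 2 = 1) :
    Subgroup.closure {x : S | x ^ 2 = 1} = ⊤ := by
  rcases (inferInstance : (Tw S).Normal).eq_bot_or_eq_top with h | h
  · exfalso
    apply ht
    have : t ∈ Tw S := Subgroup.subset_closure ht2
    rw [h] at this
    exact Subgroup.mem_bot.1 this
  · exact h

/-- an infinite simple group with an involution does not have exponent `2` -/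
theorem simple_not_two {S : Type u} [Group S] [IsSimpleGroup S] (hinf : Infinite S) {t : S}
    (ht : t ≠ 1) (ht2 : t ^ 2 = 1) (h : ∀ x : S, x ^ 2 = 1) : False := by
  have hn : (Subgroup.zpowers t).Normal := by
    refine ⟨fun x hx g => ?_⟩
    have e : g * x * g⁻¹ = x := by
      have hc : g * x = x * g := invol_mul_comm (h g) (h x) (h _)
      rw [hc, mul_inv_cancel_right]
    rw [e]
    exact hx
  rcases hn.eq_bot_or_eq_top with h1 | h1
  · rw [Subgroup.zpowers_eq_bot] at h1
    exact ht h1
  · have hf : Finite (Subgroup.zpowers t) :=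
      (finite_zpowers.2 (isOfFinOrder_iff_pow_eq_one.2 ⟨2, by norm_num, ht2⟩)).to_subtype
    rw [h1] at hf
    exact hinf.not_finite (Finite.of_equiv _ (Subgroup.topEquiv (G := S)).toEquiv)

/-- in an infinite simple group the centralisers of finite `2`-subgroups are generated by elements
of odd order -/
theorem simple_cent {S : Type u} [Group S] [IsSimpleGroup S] (hinf : Infinite S) {m : ℕ}
    (hm : Odd m) (hG : ∀ x : S, x ^ (2 * m) = 1) (h3 : Three S) {t : S} (ht : t ≠ 1)
    (ht2 : t ^ 2 = 1) (A : Subgroup S) [Finite A] (hA2 : ∀ a ∈ A, a ^ 2 = 1) :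
    Subgroup.closure {x : S | x ∈ Subgroup.centralizer (A : Set S) ∧ x ^ m = 1} =
      Subgroup.centralizer (A : Set S) := by
  have hI : Isol S := isol hm hG h3 (simple_gen ht ht2)
  let X : Subgroup (Subgroup.centralizer (A : Set S)) :=
    Subgroup.closure {x : Subgroup.centralizer (A : Set S) | x ^ m = 1}
  have hX : X.Normal := by
    refine ⟨fun x hx g => ?_⟩
    refine Subgroup.closure_induction (p := fun x _ => g * x * g⁻¹ ∈ X) ?_ ?_ ?_ ?_ hx
    · intro y hy
      exact Subgroup.subset_closure (conj_pow_one hy)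
    · simp
    · intro a b _ _ ha hb
      have e : g * (a * b) * g⁻¹ = (g * a * g⁻¹) * (g * b * g⁻¹) := by group
      rw [e]
      exact mul_mem ha hb
    · intro a _ ha
      have e : g * a⁻¹ * g⁻¹ = (g * a * g⁻¹)⁻¹ := by group
      rw [e]
      exact inv_mem ha
  have hsq : ∀ q : Subgroup.centralizer (A : Set S) ⧸ X, q ^ 2 = 1 := by
    intro q
    obtain ⟨x, rfl⟩ := QuotientGroup.mk_surjective q
    rw [← QuotientGroup.mk_pow, QuotientGroup.eq_one_iff]
    refine Subgroup.subset_closure ?_
    change (x ^ 2) ^ m = 1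
    rw [← pow_mul]
    exact exp_tw hG _ x
  obtain ⟨ψ, hψ, -⟩ := extend_finite (fun q hq => hq.eq_one_of_sq (hsq q)) S hI A hA2
    (QuotientGroup.mk' X)
  have htop : X = ⊤ := by
    rcases (inferInstance : ψ.ker.Normal).eq_bot_or_eq_top with h | h
    · exfalso
      refine simple_not_two hinf ht ht2 fun x => ?_
      have h1 : x ^ 2 ∈ ψ.ker := by rw [MonoidHom.mem_ker, map_pow, hsq]
      rw [h] at h1
      exact Subgroup.mem_bot.1 h1
    · rw [eq_top_iff]
      rintro x -
      have h1 : (x : S) ∈ ψ.ker := by rw [h]; trivial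
      rw [MonoidHom.mem_ker, hψ x] at h1
      exact (QuotientGroup.eq_one_iff x).1 h1
  apply le_antisymm
  · rw [Subgroup.closure_le]
    exact fun x hx => hx.1
  · intro x hx
    have h1 : (⟨x, hx⟩ : Subgroup.centralizer (A : Set S)) ∈ X := by rw [htop]; trivial
    have h2 : x ∈ X.map (Subgroup.centralizer (A : Set S)).subtype := ⟨_, h1, rfl⟩
    rw [MonoidHom.map_closure] at h2
    refine Subgroup.closure_mono ?_ h2
    rintro _ ⟨y, hy, rfl⟩
    refine ⟨y.2, ?_⟩
    have := congrArg Subtype.val (show y ^ m = 1 from hy)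
    simpa using this

/-- in an infinite simple group of exponent `2 m`, `m ∈ 𝓛`, no finite elementary abelian `2`-subgroup
is maximal -/
theorem simple_larger {S : Type u} [Group S] [IsSimpleGroup S] (hinf : Infinite S) {m : ℕ}
    (hm : Odd m) (hL : InL.{u} m) (hG : ∀ x : S, x ^ (2 * m) = 1) (h3 : Three S) {t : S}
    (ht : t ≠ 1) (ht2 : t ^ 2 = 1) (A : Subgroup S) [Finite A] (hA2 : ∀ a ∈ A, a ^ 2 = 1) :
    ∃ x : S, x ∉ A ∧ x ^ 2 = 1 ∧ ∀ a ∈ A, x * a = a * x := by
  by_contra hcon
  push Not at hcon
  have hgood : Good m A := by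
    right
    intro x hx hx2
    by_contra hxA
    obtain ⟨a, ha, hne⟩ := hcon x hxA hx2
    exact hne (hx a ha)
  have hI : Isol S := isol hm hG h3 (simple_gen ht ht2)
  have hC : ProdIn m (A : Set S) := by
    rcases hgood with h | h
    · exact fun x y hx hy hxm hym => prod_of_solv hm hG hI hxm hym (h x y hx hy hxm hym)
    · exact prod_of_max hm hG hL A h hA2
  have hprod := prod_of_finite hm S hG hI A hA2 hC
  let R : Subgroup S :=
    { carrier := {x | x ^ m = 1}
      one_mem' := one_pow _
      mul_mem' := fun {x y} hx hy => hprod x y hx hy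
      inv_mem' := fun {x} hx => by
        change x⁻¹ ^ m = 1
        rw [inv_pow, show x ^ m = 1 from hx, inv_one] }
  have hR : R.Normal := ⟨fun x hx g => conj_pow_one hx⟩
  rcases hR.eq_bot_or_eq_top with h | h
  · refine simple_not_two hinf ht ht2 fun x => ?_
    have h1 : x ^ 2 ∈ R := by
      change (x ^ 2) ^ m = 1
      rw [← pow_mul, hG]
    rw [h] at h1
    exact Subgroup.mem_bot.1 h1
  · have h1 : t ∈ R := by rw [h]; trivial
    have h2 : t ^ m = 1 := h1
    exact ht (eq_one_of_coprime (Nat.coprime_two_right.2 hm) h2 ht2)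

end Pool.Agent.U621.ZS
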